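import Pool.Agent.N980.WX.BrgP

/-!
Blow-up, in every bounded domain, of the Navier-Stokes equations with zero boundary values and with an additional term
`G A(curl u, u, ·)`, where `A(w, v, z)` is an alternating trilinear form of arbitrarily small positive order which
depends only on the restrictions of the fields to a ball inside of the domain: there are unique local strong solutions
(in the class of the problem) with the energy equality of Navier-Stokes, but for a dense and open set of data they blow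
up before any given time, for every `G ≠ 0` and every viscosity.
-/

open MeasureTheory Set Filter
open scoped InnerProductSpace ContDiff

namespace Pool.Agent.Results.MP_fd8964_an.AlternatingFormWalls

open H772R2.NS (E3 M3 L2V L2M)
open H772R2.NS.Pub Pool.Agent.N980.WX.P

theorem result {ε : ℝ} (hε : 0 < ε) (hε1 : ε ≤ 4 / 5) {R : ℕ} (hR : 10 ^ 16 ≤ (R : ℝ) ^ ε) (x₀ : R3) {ℓ : ℝ}
    (hℓ : 0 < ℓ) : ∃ (μ : ℝ) (p q : ℕ → R3 → R3), Packets (Metric.ball x₀ ℓ) ε R μ p q ∧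
    Alt (Metric.ball x₀ ℓ) ε (A (Metric.ball x₀ ℓ) ε R p q) ∧
    ∀ Ω : Set R3, IsOpen Ω → Bornology.IsBounded Ω → Metric.ball x₀ ℓ ⊆ Ω → ∀ ν G : ℝ, 0 < ν → G ≠ 0 →
      ∀ F, F = (fun w v z => G * A (Metric.ball x₀ ℓ) ε R p q w v z) →
      (∀ (v : L2 Ω R3) (z : L2 Ω Mat), (v, z) ∈ H1graph Ω → ∀ φ, IsTest Ω φ →
        Summable (trm (Metric.ball x₀ ℓ) ε R p q (fun x => rot (z.fn x)) v.fn φ)) ∧
      (∀ φ, IsTest Ω φ → ∀ (v : L2 Ω R3) (z : L2 Ω Mat), IsClass v φ → IsClass z (jac φ) → Adm Ω ν F v z) ∧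
      (∀ (v : L2 Ω R3) (z : L2 Ω Mat), Adm Ω ν F v z → ∀ T > 0, ∀ N : ℝ,
        Reach Ω ν F v T 0 ∨ ∃ τ ∈ Ioc 0 T, Reach Ω ν F v τ N) ∧
      (∀ T > 0, ∀ (u u' : ℝ → L2 Ω R3) (H H' : ℝ → L2 Ω Mat), Strong Ω ν F T u u' H H' →
        (∀ t ∈ Icc 0 T, ‖u t‖ ^ 2 + 2 * ν * (∫ s in (0 : ℝ)..t, ‖H s‖ ^ 2) = ‖u 0‖ ^ 2) ∧
        ∀ (w w' : ℝ → L2 Ω R3) (J J' : ℝ → L2 Ω Mat), Strong Ω ν F T w w' J J' → w 0 = u 0 →
          ∀ t ∈ Icc 0 T, w t = u t) ∧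
      ∀ v, IsTest Ω v → ∀ η > 0, ∃ w, IsTest Ω w ∧ ∫ x, ‖w x - v x‖ ^ 2 ≤ η ^ 2 ∧ ∃ r > 0,
        ∀ (w' : L2 Ω R3) (z' : L2 Ω Mat), (w', z') ∈ H1graph Ω →
          ((∀ᵐ x ∂(volume.restrict Ω), ‖w'.fn x - w x‖ ≤ r) ∨ ∫ x in Ω, ‖z'.fn x - jac w x‖ ^ 2 ≤ r ^ 2) →
          ¬Reach Ω ν F w' η 0 ∧ (Adm Ω ν F w' z' → ∀ N : ℝ, ∃ τ ∈ Ioo 0 η, Reach Ω ν F w' τ N) := by
  obtain ⟨μ, p, q, hp, ha, hmain⟩ := Pool.Agent.N980.WX.main hε hε1 hR x₀ hℓ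
  refine ⟨μ, p, q, packets hp, alt ha, fun Ω hΩ hb hBΩ ν G hν hG F hF => ?_⟩
  obtain ⟨m1, m2, m3, m4, m5⟩ := hmain Ω hΩ hb hBΩ ν G hν hG F hF
  refine ⟨fun v z hv φ hφ => m1 v z (mem_eq.1 hv) φ ((isTest_iff (Ω := Ω) φ).1 hφ),
    fun φ hφ v z h1 h2 => adm_iff.2 (m2 φ ((isTest_iff (Ω := Ω) φ).1 hφ) v z h1 ((isClass_jac (Ω := Ω) z φ).1 h2)),
    fun v z hv T hT N => ?_, fun T hT u u' H H' hu => ?_, fun v hv η hη => ?_⟩
  · obtain ⟨τ, hτ, u, u', H, H', a1, a2, a3⟩ := m3 v z (adm_iff.1 hv) T hT N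
    rcases a3 with a3 | a3
    · left
      rw [a3] at a1
      exact ⟨u, u', H, H', strong_iff.2 a1, a2, norm_nonneg _⟩
    · exact Or.inr ⟨τ, hτ, u, u', H, H', strong_iff.2 a1, a2, a3⟩
  · obtain ⟨n1, n2⟩ := m4 T hT u u' H H' (strong_iff.1 hu)
    exact ⟨n1, fun w w' J J' hw h0 => n2 w w' J J' (strong_iff.1 hw) h0⟩
  · obtain ⟨w, hw, h3, r, hr, h4⟩ := m5 v ((isTest_iff (Ω := Ω) v).1 hv) η hη
    refine ⟨w, (isTest_iff (Ω := Ω) w).2 hw, h3, r, hr, fun w' z' hm hcl => ?_⟩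
    obtain ⟨n1, n2⟩ := h4 w' z' (mem_eq.1 hm) (hcl.imp id fun h => (vdist_eq (Ω := Ω) z' w).symm.trans_le h)
    refine ⟨fun ⟨u, u', H, H', a1, a2, _⟩ => n1 ⟨u, u', H, H', strong_iff.1 a1, a2⟩, fun had N => ?_⟩
    obtain ⟨τ, hτ, u, u', H, H', a1, a2, a3⟩ := n2 (adm_iff.1 had) N
    exact ⟨τ, hτ, u, u', H, H', strong_iff.2 a1, a2, a3⟩

end Pool.Agent.Results.MP_fd8964_an.AlternatingFormWalls
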