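import Pool.Agent.N327.MD.Ens2
import Pool.Agent.H772R2.NS.PubBridge

/-!
# The negated form of the question holds for a stochastic Galerkin system of Navier-Stokes

We consider the Navier-Stokes equations in a bounded open set `Ω ⊆ ℝ³`, with Dirichlet boundary
conditions, for random velocities: the probability space is `{1, …, n}`, with the probabilities
`m k > 0`, and `u k` is the velocity in the case `k`. Let `W` be a linear space of real random
variables which contains the constants. In the stochastic Galerkin (polynomial chaos) system the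
values of the velocity are in `W`, and the Navier-Stokes equations

`∂ₜu + (u·∇)u - ν Δu + ∇p = f`, `div u = 0` in `Ω`, `u = 0` on `∂Ω`

are required to hold up to random fields which are orthogonal to `W` in `L²(m)`. For `W = ` the
constants this is one copy of the Navier-Stokes equations, for `W = ` all random variables these
are `n` independent copies.

There are a finite probability space and a space `W` of dimension `33`, such that, for every
viscosity `ν > 0`, every nonempty bounded open set `Ω`, every time `T > 0` and all divergence free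
initial values `u₀ ∈ C_c^∞(Ω)³` with values in `W`, there is a force `f ∈ C_c^∞(ℝ × Ω)` with values
in `W` for which no weak solution satisfies `∂ₜu ∈ L²(0,T';V) ∩ L^∞(0,T';H)` for all `T' > 0`: the
negated form of the question. There is a solution with this property for all `T' < T`, but no weak
solution on `[0,T]` satisfies `∂ₜu ∈ L^{4/3}(0,T;L²)`. If `u₀ = 0`, then the support of `f` is in
`(0,∞) × Ω`.
-/

set_option autoImplicit false

open MeasureTheory Set Filter
open scoped InnerProductSpace ENNReal ContDiff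

namespace Pool.Agent.Results.MP_fd8964_an.GalerkinEnsembleWalls

open H772R2.NS.Pub

/-- The entry `(i, j)` of a matrix. -/
def entry (A : Mat) (i j : Fin 3) : ℝ := (show EuclideanSpace ℝ (Fin 3 × Fin 3) from A) (i, j)

/-- The product of a matrix and a vector. If `A = ∇u`, with the entries `∂_j u_i`, then `A v` is
`(v·∇)u`. -/
noncomputable def mulVec (A : Mat) (v : R3) : R3 :=
  WithLp.toLp 2 fun i : Fin 3 => ∑ j : Fin 3, entry A i j * ⟪e j, v⟫_ℝ

/-- The function under the time integral in the weak form of the Navier-Stokes equations, with the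
test field `θ(t) φ(x)`: here `u`, `G = ∇u` and `f` are the fields at the time `t`, `p = θ(t)` and
`q = θ'(t)`. -/
noncomputable def integrand {Ω : Set R3} (ν : ℝ) (u : L2 Ω R3) (G : L2 Ω Mat) (f φ : R3 → R3)
    (p q : ℝ) : ℝ :=
  -q * (∫ x in Ω, ⟪u.fn x, φ x⟫_ℝ)
    + p * ((∫ x in Ω, ⟪mulVec (G.fn x) (u.fn x), φ x⟫_ℝ) + ν * (∫ x in Ω, ⟪G.fn x, jac φ x⟫_ℝ)
      - ∫ x in Ω, ⟪f x, φ x⟫_ℝ)

/-- The values of the random element `g` of the real vector space `E` are in `W`, i.e.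
`g ∈ W ⊗ E`: the linear relations which hold for all the random variables in `W` hold for `g`. -/
def ValuesIn {n : ℕ} (W : Submodule ℝ (Fin n → ℝ)) {E : Type} [AddCommGroup E] [Module ℝ E]
    (g : Fin n → E) : Prop :=
  ∀ l : Fin n → ℝ, (∀ h ∈ W, ∑ k, l k * h k = 0) → ∑ k, l k • g k = 0

/-- The random fields `u`, with `G = ∇u`, are a weak solution of the Galerkin system on `[0,T]`:
`u ∈ L^∞(0,T;H) ∩ L²(0,T;V)`, the values of `u` are in `W`, and, for all `h ∈ W` and all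
divergence free test fields `φ`, the expectation of `h` times the weak form
`d/dt ∫ u·φ + ∫ (u·∇)u·φ + ν ∫ ∇u:∇φ - ∫ f·φ` of the Navier-Stokes equations vanishes, in the sense
of distributions on `(0,T)`. -/
structure IsWeakSolution (Ω : Set R3) {n : ℕ} (m : Fin n → ℝ) (W : Submodule ℝ (Fin n → ℝ))
    (ν T : ℝ) (f : Fin n → ℝ → R3 → R3) (u : Fin n → ℝ → L2 Ω R3) (G : Fin n → ℝ → L2 Ω Mat) :
    Prop where
  meas : ∀ k, AEStronglyMeasurable (u k) (volume.restrict (Ioo 0 T))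
  bdd : ∀ k, ∃ M : ℝ, ∀ᵐ t ∂(volume.restrict (Ioo 0 T)), ‖u k t‖ ≤ M
  grad : ∀ k, ∀ᵐ t ∂(volume.restrict (Ioo 0 T)), (u k t, G k t) ∈ H1graph Ω
  gradL2 : ∀ k, MemLp (G k) 2 (volume.restrict (Ioo 0 T))
  values : ∀ᵐ t ∂(volume.restrict (Ioo 0 T)), ValuesIn W fun k => u k t
  eqn : ∀ h ∈ W, ∀ φ, IsTest Ω φ → ∀ θ : ℝ → ℝ, ContDiff ℝ ∞ θ → HasCompactSupport θ →
    tsupport θ ⊆ Ioo 0 T →
    ∫ t in Ioo 0 T, ∑ k, m k * h k * integrand ν (u k t) (G k t) (f k t) φ (θ t) (deriv θ t) = 0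

/-- The fields `u k` have the initial values `u₀ k` and the time derivatives
`u' k ∈ L^p(0,T;L²(Ω))`. -/
structure HasTimeDeriv (Ω : Set R3) {n : ℕ} (p : ℝ≥0∞) (T : ℝ) (u₀ : Fin n → L2 Ω R3)
    (u u' : Fin n → ℝ → L2 Ω R3) : Prop where
  mem : ∀ k, MemLp (u' k) p (volume.restrict (Ioo 0 T))
  prim : ∀ k, ∀ᵐ t ∂(volume.restrict (Ioo 0 T)), u k t = u₀ k + ∫ s in (0 : ℝ)..t, u' k s

/-- The fields `u k` have the initial values `u₀ k` and the time derivatives
`u' k = ∂ₜu k ∈ L²(0,T;V) ∩ L^∞(0,T;H)`, and `G' k = ∇∂ₜu k`. -/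
structure IsRegular (Ω : Set R3) {n : ℕ} (T : ℝ) (u₀ : Fin n → L2 Ω R3)
    (u u' : Fin n → ℝ → L2 Ω R3) (G' : Fin n → ℝ → L2 Ω Mat) : Prop
    extends HasTimeDeriv Ω ∞ T u₀ u u' where
  grad : ∀ k, ∀ᵐ t ∂(volume.restrict (Ioo 0 T)), (u' k t, G' k t) ∈ H1graph Ω
  gradL2 : ∀ k, MemLp (G' k) 2 (volume.restrict (Ioo 0 T))

section bridge

theorem mulVec_eq (A : H772R2.NS.M3) (a : H772R2.NS.E3) :
    (mulVec A a : H772R2.NS.E3) = Pool.Agent.N327.LE.mv A a := by
  have h : ∀ i : Fin 3, ∀ a : H772R2.NS.E3, ⟪(e i : H772R2.NS.E3), a⟫_ℝ = a i := fun i a => by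
    rw [inner_e]
  show WithLp.toLp 2 (fun i : Fin 3 => ∑ j : Fin 3, entry A i j
    * ⟪(e j : H772R2.NS.E3), a⟫_ℝ) = _
  simp only [h]
  rfl

open H772R2.NS in
theorem integrand_eq {Ω : Set E3} (ν : ℝ) (u : L2V Ω) (G : L2M Ω) (f φ : E3 → E3) (p q : ℝ) :
    integrand (Ω := Ω) ν u G f φ p q = Pool.Agent.N327.MD.nsI ν u G f φ p q := by
  have e1 : (∫ x in (show Set R3 from Ω), ⟪mulVec (L2.fn (Ω := Ω) (E := Mat) G x)
      (L2.fn (Ω := Ω) (E := R3) u x), (φ : R3 → R3) x⟫_ℝ)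
      = ∫ x in Ω, ⟪Pool.Agent.N327.LE.mv (G x) (u x), φ x⟫_ℝ :=
    integral_congr_ae (μ := (volume : Measure E3).restrict (Ω : Set E3))
      (Eventually.of_forall fun x => congrArg (fun y : E3 => ⟪y, φ x⟫_ℝ)
        (mulVec_eq (G x) (u x)))
  have e2 : (∫ x in (show Set R3 from Ω), ⟪L2.fn (Ω := Ω) (E := Mat) G x, Pub.jac φ x⟫_ℝ)
      = ∫ x in Ω, ⟪G x, H772R2.NS.jac φ x⟫_ℝ :=
    integral_congr_ae (μ := (volume : Measure E3).restrict (Ω : Set E3))
      (Eventually.of_forall fun x => congrArg (fun y : M3 => ⟪G x, y⟫_ℝ) (jac_eq φ x))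
  exact congrArg₂ (fun y z => -q * (∫ x in Ω, ⟪u x, φ x⟫_ℝ)
      + p * (y + ν * z - ∫ x in Ω, ⟪f x, φ x⟫_ℝ)) e1 e2

end bridge

/-- There are a finite probability space `{1, …, n}` with the probabilities `m k > 0` and a space
`W` of random variables, of dimension `33` and containing the constants, with the following
property. Let `ν > 0`, let `Ω` be a nonempty bounded open set, let `T > 0` and let `w` be a random
divergence free test field with values in `W`. Then there is a smooth random force `f` with values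
in `W` and with compact support in `ℝ × Ω`, which vanishes for `t < T/2` if `w = 0`, such that with
the initial values `w`

* no `u` is a weak solution of the Galerkin system with `∂ₜu ∈ L²(0,T';V) ∩ L^∞(0,T';H)` for all
  `T' > 0`;
* no weak solution on `[0,T]` satisfies `∂ₜu ∈ L^{4/3}(0,T;L²(Ω))`;
* some `u` is a weak solution with `∂ₜu ∈ L²(0,T';V) ∩ L^∞(0,T';H)` for all `0 < T' < T`. -/
theorem result : ∃ (n : ℕ) (m : Fin n → ℝ) (W : Submodule ℝ (Fin n → ℝ)),
    (∀ k, 0 < m k) ∧ ∑ k, m k = 1 ∧ (fun _ => 1) ∈ W ∧ Module.finrank ℝ W = 33 ∧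
    ∀ ν : ℝ, 0 < ν → ∀ Ω : Set R3, IsOpen Ω → Bornology.IsBounded Ω → Ω.Nonempty →
    ∀ T : ℝ, 0 < T → ∀ w : Fin n → R3 → R3, (∀ k, IsTest Ω (w k)) →
    (∀ x, ValuesIn W fun k => w k x) →
    ∃ f : Fin n → ℝ → R3 → R3, (∀ k, ContDiff ℝ ∞ fun z : ℝ × R3 => f k z.1 z.2) ∧
      (∀ k, HasCompactSupport fun z : ℝ × R3 => f k z.1 z.2) ∧
      (∀ k, tsupport (fun z : ℝ × R3 => f k z.1 z.2) ⊆ univ ×ˢ Ω) ∧
      (∀ t x, ValuesIn W fun k => f k t x) ∧
      ((∀ k, w k = 0) → ∀ k t, t < T / 2 → f k t = 0) ∧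
      ∀ u₀ : Fin n → L2 Ω R3, (∀ k, IsClass (u₀ k) (w k)) →
        (¬ ∃ u G u' G', ∀ T', 0 < T' →
          IsWeakSolution Ω m W ν T' f u G ∧ IsRegular Ω T' u₀ u u' G') ∧
        (¬ ∃ u G u', IsWeakSolution Ω m W ν T f u G ∧ HasTimeDeriv Ω (4 / 3) T u₀ u u') ∧
        ∃ u G u' G', ∀ T', 0 < T' → T' < T →
          IsWeakSolution Ω m W ν T' f u G ∧ IsRegular Ω T' u₀ u u' G' := by
  obtain ⟨c, hc, hc0, H⟩ := Pool.Agent.N327.MD.mid
  obtain ⟨n, m, φ, hm, hm1, hφ0, hort, hc3⟩ :=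
    Pool.Agent.N983.NC.moment_rep (0 : Fin 33) ⟨1, by decide⟩ c hc hc0
  refine ⟨n, m, Submodule.span ℝ (Set.range φ), hm, hm1, ?_, ?_, ?_⟩
  · refine Submodule.subset_span ⟨0, ?_⟩
    funext k
    exact hφ0 k
  · rw [finrank_span_eq_card (Pool.Agent.N983.NC.linind hort)]
    simp
  intro ν hν Ω hΩ hb hne T hT w hw hwW
  obtain ⟨f, f1, f2, f3, f3', f4, H2⟩ := Pool.Agent.N327.MD.ens_conv hΩ hort hc3
    (H ν hν Ω hΩ hb hne T hT) w (fun k => (isTest_iff _).mp (hw k)) hwW
  refine ⟨f, f1, f2, f3, f3', fun hw0 k t ht => f4 hw0 k t (by linarith), ?_⟩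
  intro u₀ hu₀
  obtain ⟨K1, K2⟩ := H2 u₀ hu₀
  have hre : ∀ T : ℝ, (volume.restrict (Ioo 0 T) : Measure ℝ) = volume.restrict (Ioc 0 T) :=
    Pool.Agent.N327.MD.restr_eq
  have no : ¬ ∃ u G u', IsWeakSolution Ω m (Submodule.span ℝ (Set.range φ)) ν T f u G
      ∧ HasTimeDeriv Ω (4 / 3) T u₀ u u' := by
    rintro ⟨u, G, u', hW, hD⟩
    refine K2 u u' G (fun k => ?_) (fun k => ?_) (fun k => ?_) (fun k => ?_) ?_ ?_
    · rw [← hre]
      exact hD.mem k
    · rw [← hre]
      exact hD.prim k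
    · rw [← hre]
      filter_upwards [hW.grad k] with t ht
      exact mem_pub.mpr ht
    · rw [← hre]
      exact hW.gradL2 k
    · rw [← hre]
      exact hW.values
    · intro h hh ψ hψ θ h1 h2 h3
      refine Eq.trans ?_ (hW.eqn h hh ψ ((isTest_iff ψ).mpr hψ) θ h1 h2 h3)
      exact integral_congr_ae (Eventually.of_forall fun t => Finset.sum_congr rfl fun k _ =>
        congrArg (m k * h k * ·) (integrand_eq ν (u k t) (G k t) (f k t) ψ (θ t)
          (deriv θ t)).symm)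
  refine ⟨?_, no, ?_⟩
  · rintro ⟨u, G, u', G', h⟩
    obtain ⟨hW, hR⟩ := h T hT
    refine no ⟨u, G, u', hW, fun k => ?_, hR.prim⟩
    have hfin : IsFiniteMeasure (volume.restrict (Ioo (0 : ℝ) T) : Measure ℝ) := by
      rw [isFiniteMeasure_restrict]; simp
    exact (hR.mem k).mono_exponent le_top
  · obtain ⟨u, u', z, z', h⟩ := K1
    refine ⟨u, z, u', z', fun T' hT' hT'T => ?_⟩
    obtain ⟨cu, cu', cz, cz', mu, mu', pu, hval, he⟩ := h T' hT' hT'T
    have mem : ∀ {Y : Type} [NormedAddCommGroup Y] {g : ℝ → Y} {p : ℝ≥0∞},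
        ContinuousOn g (Icc 0 T') → MemLp g p (volume.restrict (Ioo 0 T')) := by
      intro Y _ g p hg
      rw [hre]
      exact H772R2.NSG.mem_cont hg
    refine ⟨⟨fun k => (mem (p := 1) (cu k)).aestronglyMeasurable, fun k => ?_, fun k => ?_,
      fun k => mem (cz k), Eventually.of_forall fun t => hval t, ?_⟩,
      ⟨⟨fun k => mem (cu' k), fun k => ?_⟩, fun k => ?_, fun k => mem (cz' k)⟩⟩
    · obtain ⟨M, hM⟩ := (isCompact_Icc.image_of_continuousOn (cu k)).isBounded.exists_norm_le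
      refine ⟨M, ?_⟩
      filter_upwards [ae_restrict_mem measurableSet_Ioo] with t ht
      exact hM _ ⟨t, ⟨ht.1.le, ht.2.le⟩, rfl⟩
    · filter_upwards [ae_restrict_mem measurableSet_Ioo] with t ht
      exact mem_pub.mp (mu k t ⟨ht.1.le, ht.2.le⟩)
    · intro h hh ψ hψ θ h1 h2 h3
      refine Eq.trans ?_ (he h hh ψ ((isTest_iff ψ).mp hψ) θ h1 h2 h3)
      exact integral_congr_ae (Eventually.of_forall fun t => Finset.sum_congr rfl fun k _ =>
        congrArg (m k * h k * ·) (integrand_eq ν (u k t) (z k t) (f k t) ψ (θ t)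
          (deriv θ t)))
    · filter_upwards [ae_restrict_mem measurableSet_Ioo] with t ht
      exact pu k t ⟨ht.1.le, ht.2.le⟩
    · filter_upwards [ae_restrict_mem measurableSet_Ioo] with t ht
      exact mem_pub.mp (mu' k t ⟨ht.1.le, ht.2.le⟩)

end Pool.Agent.Results.MP_fd8964_an.GalerkinEnsembleWalls
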